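import Pool.Agent.CI.Res2
import Pool.Agent.CI.Mor3

/-!
# The transfer theorem for strong submodels, in both directions
-/

set_option autoImplicit false

open Cardinal Ordinal FirstOrder FirstOrder.Language Pool.Agent.MP_ec9ef7_lc.UT

namespace Pool.Agent.CI

variable {L : FirstOrder.Language.{0, 0}} {Φ : Set (Σ n, Fml L n)}

theorem spectrumΦ [Countable (Σ l, L.Functions l)] [Countable (Σ k, L.Relations k)]
    (hΦ : Φ.Countable) {ψ : Fml L 0} (h1 : ChainClosedΦ Φ ψ) (h2 : InterClosedΦ Φ ψ) :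
    ∃ ν : Cardinal.{0}, ν < ℶ_ ω₁ ∧ ∀ μ : Cardinal.{0}, ν < μ → Categorical ψ μ →
      ∀ μ' : Cardinal.{0}, ((∃ κ : Cardinal.{0}, ℵ_ 1 ≤ κ ∧ κ ≤ μ' ∧ Categorical ψ κ) ∨
        ℶ_ (Order.succ ((2 : Cardinal.{0}) ^ (ℵ_ 1 : Cardinal.{0}))).ord ≤ μ') →
          Categorical ψ μ' := by
  have : Countable Φ := hΦ
  obtain ⟨e, he⟩ := exists_surjective_nat (Option Φ)
  have := countable_funs Φ
  have := countable_rels Φ hΦ
  obtain ⟨K, hK⟩ := exists_icls (chain_morF he h1) (inter_morF he h2)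
  obtain ⟨ν, hν, h⟩ := core K hK
  refine ⟨ν, hν, fun μ hμ hcat μ' hμ' => ?_⟩
  refine (categorical_morF he ψ μ').1 (h μ hμ ((categorical_morF he ψ μ).2 hcat) μ' ?_)
  rcases hμ' with ⟨κ, h3, h4, h5⟩ | h3
  · exact Or.inl ⟨κ, h3, h4, (categorical_morF he ψ κ).2 h5⟩
  · exact Or.inr (Or.inl h3)

end Pool.Agent.CI
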