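import Pool.Agent.CI.Res4

/-!
# Morley's theorem for classes which admit intersections and amalgamation over countable models

Let `ψ` be an `L_{ω₁,ω}`-sentence in a countable vocabulary and `Φ` a countable set of formulas. If
the class of models of `ψ` with the strong submodels given by `Φ` admits intersections and unions of
chains, has amalgamation over countable models and joint embedding of countable models and arbitrary
models, then there is `ν < ℶ_{ω₁}` such that categoricity in one cardinal `μ > ν` implies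
categoricity in every uncountable cardinal.
-/

set_option autoImplicit false

open Cardinal Ordinal FirstOrder FirstOrder.Language Pool.Agent.MP_ec9ef7_lc.UT Pool.Agent.CI

namespace Pool.Agent.CIOld.UncountableOld

theorem result {L : FirstOrder.Language.{0, 0}} [Countable (Σ l, L.Functions l)]
    [Countable (Σ k, L.Relations k)] (ψ : Fml L 0) (Φ : Set (Σ n, Fml L n)) (hΦ : Φ.Countable)
    (h1 : Fragment Φ ψ ∨ ChainClosedΦ Φ ψ) (h2 : InterClosedΦ Φ ψ) (h3 : AmalgΦ Φ ψ)
    (h4 : JointΦ Φ ψ) :
    ∃ ν : Cardinal.{0}, ν < ℶ_ ω₁ ∧ ∀ μ : Cardinal.{0}, ν < μ → Categorical ψ μ →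
      ∀ μ' : Cardinal.{0}, ℵ₀ < μ' → Categorical ψ μ' := by
  obtain ⟨ν, hν, h⟩ := exactΦ hΦ (h1.elim chainClosed_of_fragment id) h2 h3
  refine ⟨ν, hν, fun μ hμ hcat μ' hμ' => h μ hμ hcat μ' (Or.inr ⟨h4, ?_⟩)⟩
  rw [← Cardinal.succ_aleph0]
  exact Order.succ_le_of_lt hμ'

end Pool.Agent.CIOld.UncountableOld
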